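import Pool.Agent.H500.ME.Stm2

set_option autoImplicit false
set_option linter.unusedSectionVars false

/-!
# Project ME (helper500), part E2: invariants of the dual representation (helper728)
-/

namespace Pool.Agent.H728.ME.DUI

open Matrix

theorem dui_core {G : Type} [Group G] {n : ℕ} {C : Type} [Field C] (ρ : G →* GL (Fin n) C)
    (hss : ∀ W : Submodule C (Fin n → C),
      (∀ g, ∀ u ∈ W, (ρ g : Matrix (Fin n) (Fin n) C).mulVec u ∈ W) →
      ∃ W' : Submodule C (Fin n → C),
        (∀ g, ∀ u ∈ W', (ρ g : Matrix (Fin n) (Fin n) C).mulVec u ∈ W') ∧ IsCompl W W')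
    (I I' : Submodule C (Fin n → C))
    (hI : ∀ x, x ∈ I ↔ ∀ g, (ρ g : Matrix (Fin n) (Fin n) C).mulVec x = x)
    (hI' : ∀ x, x ∈ I' ↔ ∀ g, (((ρ g)⁻¹ : GL (Fin n) C) : Matrix (Fin n) (Fin n) C).transpose.mulVec x = x) :
    Module.finrank C I' = Module.finrank C I := by
  obtain ⟨W, hWs, hc⟩ := hss I (fun g u hu => by
    rw [(hI u).1 hu g]
    exact hu)
  -- the adjoint of the action
  have hadj : ∀ g x y, (((ρ g)⁻¹ : GL (Fin n) C) : Matrix (Fin n) (Fin n) C).transpose.mulVec x ⬝ᵥ y =
      x ⬝ᵥ (ρ g⁻¹ : Matrix (Fin n) (Fin n) C).mulVec y := by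
    intro g x y
    rw [Matrix.mulVec_transpose, ← Matrix.dotProduct_mulVec, map_inv]
  have hext : ∀ x y : Fin n → C, (∀ z, x ⬝ᵥ z = y ⬝ᵥ z) → x = y := by
    intro x y h
    funext i
    have := h (Pi.single i 1)
    rwa [dotProduct_single_one, dotProduct_single_one] at this
  -- the invariant functionals are those which vanish on `W`
  have hmem : ∀ x, x ∈ I' ↔ ∀ w ∈ W, x ⬝ᵥ w = 0 := by
    intro x
    constructor
    · intro hx w hw
      rw [hI'] at hx
      have hinv : ∀ g y, x ⬝ᵥ (ρ g : Matrix (Fin n) (Fin n) C).mulVec y = x ⬝ᵥ y := by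
        intro g y
        have h := hadj g⁻¹ x y
        rw [hx, inv_inv] at h
        exact h.symm
      by_contra hne
      let K : Submodule C (Fin n → C) :=
        { carrier := {y | y ∈ W ∧ x ⬝ᵥ y = 0}
          zero_mem' := ⟨W.zero_mem, dotProduct_zero x⟩
          add_mem' := fun {a b} ha hb => ⟨W.add_mem ha.1 hb.1, by
            rw [dotProduct_add, ha.2, hb.2, add_zero]⟩
          smul_mem' := fun c a ha => ⟨W.smul_mem c ha.1, by
            rw [dotProduct_smul, ha.2, smul_zero]⟩ }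
      obtain ⟨D, hDs, hKD⟩ := hss K (fun g u hu => ⟨hWs g u hu.1, by rw [hinv]; exact hu.2⟩)
      have hw' : w ∈ K ⊔ D := by rw [hKD.sup_eq_top]; exact Submodule.mem_top
      obtain ⟨k, hk, d, hd, hkd⟩ := Submodule.mem_sup.1 hw'
      have hdW : d ∈ W := by
        have : d = w - k := by rw [← hkd]; abel
        rw [this]
        exact W.sub_mem hw hk.1
      have hxd : x ⬝ᵥ d ≠ 0 := by
        intro h
        apply hne
        rw [← hkd, dotProduct_add, hk.2, h, add_zero]
      have hdI : d ∈ I := by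
        rw [hI]
        intro g
        have h1 : (ρ g : Matrix (Fin n) (Fin n) C).mulVec d - d ∈ K ⊓ D := by
          refine ⟨⟨W.sub_mem (hWs g d hdW) hdW, ?_⟩, D.sub_mem (hDs g d hd) hd⟩
          rw [dotProduct_sub, hinv, sub_self]
        rw [hKD.inf_eq_bot, Submodule.mem_bot] at h1
        exact sub_eq_zero.1 h1
      have hd0 : d ∈ I ⊓ W := ⟨hdI, hdW⟩
      rw [hc.inf_eq_bot, Submodule.mem_bot] at hd0
      exact hxd (by rw [hd0, dotProduct_zero])
    · intro hx
      rw [hI']
      intro g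
      apply hext
      intro z
      rw [hadj]
      have hz : z ∈ I ⊔ W := by rw [hc.sup_eq_top]; exact Submodule.mem_top
      obtain ⟨v, hv, w, hw, rfl⟩ := Submodule.mem_sup.1 hz
      rw [Matrix.mulVec_add, (hI v).1 hv, dotProduct_add, dotProduct_add, hx w hw,
        hx _ (hWs _ w hw)]
  have hI2 : I' = (Matrix.toBilin' (1 : Matrix (Fin n) (Fin n) C)).orthogonal W := by
    ext x
    rw [hmem, LinearMap.BilinForm.mem_orthogonal_iff]
    refine forall_congr' fun u => forall_congr' fun _ => ?_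
    rw [Matrix.toBilin'_apply', Matrix.one_mulVec, dotProduct_comm]
  have hnd : (Matrix.toBilin' (1 : Matrix (Fin n) (Fin n) C)).Nondegenerate :=
    Matrix.nondegenerate_toBilin'_iff.2
      (Matrix.nondegenerate_of_det_ne_zero (by rw [Matrix.det_one]; exact one_ne_zero))
  have h1 := LinearMap.BilinForm.finrank_orthogonal hnd W
  have h2 := Submodule.finrank_add_eq_of_isCompl hc
  rw [hI2, h1]
  omega

open Pool.Agent.H500.ME in
theorem main : Pool.Agent.H500.ME.S_DUI := by
  intro G _ n C _ ρ h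
  exact dui_core ρ h (Inv ρ) (Inv (Pool.Agent.H328.ZO.SYS.dual.comp ρ))
    (fun x => Iff.rfl) (fun x => Iff.rfl)

end Pool.Agent.H728.ME.DUI
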